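import Pool.Agent.Y947.RL.Stm2
import Pool.Agent.Y947.DL.Opt

/-!
# Project RL: the optimisation
-/

set_option autoImplicit false

open Finset

namespace Pool.Agent.Y319.RL

open Pool.Agent.Y947.RL Pool.Agent.Y947.DL Pool.Agent.H388SL

/-- the final inequality -/
lemma final {R L m n Θ : ℝ} (hR : 1 ≤ R) (hL : 1 ≤ L) (hLR : L ≤ R) (hm0 : 0 ≤ m)
    (hm : m ≤ L ^ 4 / (128 * R ^ 3)) (hn : 0 ≤ n) (h1 : 4 * R ^ 2 / L ≤ Θ)
    (h2 : n * L ^ 2 / (4 * R) ≤ Θ)
    (h : 0 ≤ (Θ / R) ^ 2 * R + 2 * (Θ / R) * (-Θ + n * (2 * m)) + R * Θ / L + 2 * m * n ^ 2) :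
    False := by
  have hR0 : 0 < R := by linarith
  have hL0 : 0 < L := by linarith
  have hΘ : 0 < Θ := lt_of_lt_of_le (by positivity) h1
  have hA : R * Θ / L ≤ Θ ^ 2 / (4 * R) := by
    have e1 : R * Θ / L = (4 * R ^ 2 / L) * (Θ / (4 * R)) := by field_simp
    have e2 : Θ ^ 2 / (4 * R) = Θ * (Θ / (4 * R)) := by ring
    rw [e1, e2]
    exact mul_le_mul_of_nonneg_right h1 (by positivity)
  have hm2 : m ≤ L ^ 2 / (128 * R) := by
    refine hm.trans ?_
    rw [div_le_div_iff₀ (by positivity) (by positivity)]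
    have h3 : L ^ 2 ≤ R ^ 2 := pow_le_pow_left₀ hL0.le hLR 2
    have h4 : 0 ≤ 128 * R * L ^ 2 := by positivity
    calc L ^ 4 * (128 * R) = 128 * R * L ^ 2 * L ^ 2 := by ring
      _ ≤ 128 * R * L ^ 2 * R ^ 2 := mul_le_mul_of_nonneg_left h3 h4
      _ = L ^ 2 * (128 * R ^ 3) := by ring
  have hB0 : 16 * (n * m) ≤ Θ := by
    have h3 : n * m ≤ n * (L ^ 2 / (128 * R)) := mul_le_mul_of_nonneg_left hm2 hn
    have h4 : n * (L ^ 2 / (128 * R)) = (n * L ^ 2 / (4 * R)) / 32 := by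
      field_simp
      ring
    have h5 : 0 ≤ n * L ^ 2 / (4 * R) := by positivity
    linarith
  have hB : 2 * (Θ / R) * (n * (2 * m)) ≤ Θ ^ 2 / (4 * R) := by
    have e1 : 2 * (Θ / R) * (n * (2 * m)) = (16 * (n * m)) * (Θ / (4 * R)) := by
      field_simp
      ring
    have e2 : Θ ^ 2 / (4 * R) = Θ * (Θ / (4 * R)) := by ring
    rw [e1, e2]
    exact mul_le_mul_of_nonneg_right hB0 (by positivity)
  have hC : 2 * m * n ^ 2 ≤ Θ ^ 2 / (4 * R) := by
    have h3 : 2 * m * n ^ 2 ≤ 2 * (L ^ 4 / (128 * R ^ 3)) * n ^ 2 :=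
      mul_le_mul_of_nonneg_right (mul_le_mul_of_nonneg_left hm (by norm_num)) (sq_nonneg _)
    have h4 : 2 * (L ^ 4 / (128 * R ^ 3)) * n ^ 2 = (n * L ^ 2 / (4 * R)) ^ 2 / (4 * R) := by
      field_simp
      ring
    have h5 : (n * L ^ 2 / (4 * R)) ^ 2 ≤ Θ ^ 2 := pow_le_pow_left₀ (by positivity) h2 2
    rw [h4] at h3
    exact h3.trans (div_le_div_of_nonneg_right h5 (by positivity))
  have e1 : (Θ / R) ^ 2 * R = 4 * (Θ ^ 2 / (4 * R)) := by field_simp
  have e2 : 2 * (Θ / R) * (-Θ + n * (2 * m)) =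
      -(8 * (Θ ^ 2 / (4 * R))) + 2 * (Θ / R) * (n * (2 * m)) := by
    field_simp
    ring
  rw [e1, e2] at h
  have h3 : 0 < Θ ^ 2 / (4 * R) := by positivity
  linarith

lemma e_bd {R L l e s : ℝ} (hR : 0 < R) (hL : 1 ≤ L) (hLR : L ≤ R) (hl : L ≤ l) (he : 1 ≤ e)
    (hs : s ≤ l / 64) (h : 0 ≤ R / e - (1 - 1 / e) * l + s) : e * L ≤ 4 * R := by
  have he0 : 0 < e := by linarith
  have hl0 : 0 < l := by linarith
  have h1 : 0 ≤ R - (e - 1) * l + s * e := by
    have h2 := mul_nonneg h he0.le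
    have h3 : (R / e - (1 - 1 / e) * l + s) * e = R - (e - 1) * l + s * e := by
      field_simp
    rwa [h3] at h2
  have h2 : s * e ≤ l / 64 * e := mul_le_mul_of_nonneg_right hs he0.le
  have h3 : e * l * (63 / 64) ≤ R + l := by nlinarith
  have h4 : (e * L) * l * (63 / 64) ≤ (2 * R) * l := by
    have h5 : (e * l * (63 / 64)) * L ≤ (R + l) * L := mul_le_mul_of_nonneg_right h3 (by linarith)
    have h6 : R * L ≤ R * l := mul_le_mul_of_nonneg_left hl hR.le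
    have h7 : l * L ≤ l * R := mul_le_mul_of_nonneg_left hLR hl0.le
    nlinarith
  have h5 : (e * L) * (63 / 64) ≤ 2 * R := by
    have h6 : (e * L * (63 / 64)) * l ≤ (2 * R) * l := by linarith
    exact le_of_mul_le_mul_right h6 hl0
  have h6 : 0 < e * L := by positivity
  linarith

lemma rhs_le {R μ L m Θ : ℝ} {e : ℕ → ℝ} {P : Finset ℕ} {a : ℝ} (ha : 0 ≤ a) (hR : 0 ≤ R)
    (hμ : 0 ≤ μ) (hL : 1 ≤ L)
    (hP : ∀ p ∈ P, 1 ≤ (p : ℝ) ∧ (p : ℝ) * μ ≤ m ∧ 1 ≤ e p ∧ L ≤ Real.log p)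
    (hΘ : Θ = ∑ p ∈ P, Real.log p / e p) :
    rhs R μ e P a ≤ a ^ 2 * R + 2 * a * (-Θ + P.card * (2 * m)) + R * Θ / L +
      2 * m * (P.card : ℝ) ^ 2 := by
  have hL0 : 0 < L := by linarith
  unfold rhs
  have t2 : ∑ p ∈ P, (-(Real.log p / e p) + ((p : ℝ) + 1) * μ) ≤ -Θ + P.card * (2 * m) := by
    rw [Finset.sum_add_distrib, Finset.sum_neg_distrib, ← hΘ, ← nsmul_eq_mul, ← Finset.sum_const]
    refine add_le_add le_rfl (Finset.sum_le_sum fun p hp => ?_)
    obtain ⟨h1, h2, -, -⟩ := hP p hp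
    nlinarith
  have t3 : ∑ p ∈ P, (R / e p - (1 - 1 / e p) * Real.log p + 2 * p * μ) ≤
      R * Θ / L + P.card * (2 * m) := by
    have e1 : R * Θ / L + P.card * (2 * m) = ∑ p ∈ P, (R / L * (Real.log p / e p) + 2 * m) := by
      rw [Finset.sum_add_distrib, ← Finset.mul_sum, ← hΘ, Finset.sum_const, nsmul_eq_mul]
      ring
    rw [e1]
    refine Finset.sum_le_sum fun p hp => ?_
    obtain ⟨h1, h2, h3, h4⟩ := hP p hp
    have h5 : R / e p ≤ R / L * (Real.log p / e p) := by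
      have h6 : R / L * (Real.log p / e p) = (R / e p) * (Real.log p / L) := by ring
      rw [h6]
      exact le_mul_of_one_le_right (by positivity) ((one_le_div hL0).mpr h4)
    have h6 : 0 ≤ (1 - 1 / e p) * Real.log p := by
      refine mul_nonneg ?_ (by linarith)
      rw [sub_nonneg, div_le_one (by linarith)]
      exact h3
    nlinarith
  have t4 : ∑ p ∈ P, ∑ q ∈ P.erase p, ((p : ℝ) + q) * μ ≤
      (P.card : ℝ) * (((P.card : ℝ) - 1) * (2 * m)) := by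
    rw [← nsmul_eq_mul, ← Finset.sum_const]
    refine Finset.sum_le_sum fun p hp => ?_
    have h1 : ((P.erase p).card : ℝ) = (P.card : ℝ) - 1 := by
      rw [Finset.card_erase_of_mem hp, Nat.cast_sub (Finset.card_pos.mpr ⟨p, hp⟩)]
      norm_num
    rw [← h1, ← nsmul_eq_mul, ← Finset.sum_const]
    refine Finset.sum_le_sum fun q hq => ?_
    have h2 := (hP p hp).2.1
    have h3 := (hP q (Finset.mem_of_mem_erase hq)).2.1
    nlinarith
  have t2' := mul_le_mul_of_nonneg_left t2 (by linarith : 0 ≤ 2 * a)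
  have e2 : (P.card : ℝ) * (2 * m) + (P.card : ℝ) * (((P.card : ℝ) - 1) * (2 * m)) =
      2 * m * (P.card : ℝ) ^ 2 := by ring
  linarith

/-- **The optimisation.** -/
theorem opt : S_OPT := by
  obtain ⟨Y0, hY01, hY0⟩ := exists_Y0
  obtain ⟨C, hC⟩ : ∃ C : ℝ, C = max 128 (Y0 : ℝ) := ⟨_, rfl⟩
  have hC128 : 128 ≤ C := by rw [hC]; exact le_max_left _ _
  have hCY0 : (Y0 : ℝ) ≤ C := by rw [hC]; exact le_max_right _ _
  have hC0 : 0 < C := by linarith
  refine ⟨1 / (256 * C), by positivity, ?_⟩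
  intro R μ e Bad hR hμ he hbad hP
  by_contra hlt
  push Not at hlt
  obtain ⟨L, hL⟩ : ∃ L : ℝ, L = 1 + Real.log R := ⟨_, rfl⟩
  rw [← hL] at hlt
  have hR0 : 0 < R := by linarith
  have hL1 : 1 ≤ L := by
    rw [hL]
    linarith [Real.log_nonneg hR]
  have hL0 : 0 < L := by linarith
  have hLR : L ≤ R := by
    rw [hL]
    linarith [Real.log_le_sub_one_of_pos hR0]
  obtain ⟨X, hX⟩ : ∃ X : ℝ, X = C * R ^ 3 / L ^ 2 := ⟨_, rfl⟩
  have hXR : C * R ≤ X := by
    rw [hX, le_div_iff₀ (by positivity)]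
    have h3 : L ^ 2 ≤ R ^ 2 := pow_le_pow_left₀ hL0.le hLR 2
    calc C * R * L ^ 2 ≤ C * R * R ^ 2 := mul_le_mul_of_nonneg_left h3 (by positivity)
      _ = C * R ^ 3 := by ring
  have hX1 : 128 * R ≤ X := (mul_le_mul_of_nonneg_right hC128 hR0.le).trans hXR
  have hXC : C ≤ X := by
    refine le_trans ?_ hXR
    nlinarith
  have hX0 : 0 < X := by linarith
  have hXμ : X * μ ≤ L ^ 4 / (256 * R ^ 3) := by
    have h1 : X * μ ≤ X * (1 / (256 * C) * (L / R) ^ 6) := mul_le_mul_of_nonneg_left hlt.le hX0.le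
    refine h1.trans (le_of_eq ?_)
    rw [hX]
    field_simp
  obtain ⟨Y, hY⟩ : ∃ Y : ℕ, Y = ⌈X⌉₊ := ⟨_, rfl⟩
  have hYge : X ≤ Y := by rw [hY]; exact Nat.le_ceil _
  have hYle : (Y : ℝ) ≤ 2 * X := by
    have : (Y : ℝ) < X + 1 := by rw [hY]; exact Nat.ceil_lt_add_one hX0.le
    linarith
  have hY0Y : Y0 ≤ Y := by exact_mod_cast (hCY0.trans hXC).trans hYge
  have hY1 : 1 ≤ Y := by
    have : (1 : ℝ) ≤ Y := by linarith
    exact_mod_cast this
  obtain ⟨m, hmdef⟩ : ∃ m : ℝ, m = (Y : ℝ) * μ := ⟨_, rfl⟩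
  have hm0 : 0 ≤ m := by rw [hmdef]; positivity
  have hm : m ≤ L ^ 4 / (128 * R ^ 3) := by
    have h1 : m ≤ 2 * (X * μ) := by
      rw [hmdef]
      have := mul_le_mul_of_nonneg_right hYle hμ
      linarith
    have h2 : L ^ 4 / (128 * R ^ 3) = 2 * (L ^ 4 / (256 * R ^ 3)) := by
      field_simp
      norm_num
    rw [h2]
    linarith
  have hmL : m ≤ L / 128 := by
    refine hm.trans ?_
    rw [div_le_div_iff₀ (by positivity) (by norm_num)]
    have h3 : L ^ 3 ≤ R ^ 3 := pow_le_pow_left₀ hL0.le hLR 3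
    calc L ^ 4 * 128 = 128 * L * L ^ 3 := by ring
      _ ≤ 128 * L * R ^ 3 := mul_le_mul_of_nonneg_left h3 (by positivity)
      _ = L * (128 * R ^ 3) := by ring
  -- the primes
  have hp : ∀ p ∈ blk Y, p.Prime ∧ 32 * R ≤ (p : ℝ) ∧ (p : ℝ) * μ ≤ m ∧ L ≤ Real.log p := by
    intro p hp
    obtain ⟨h1, h2, h3⟩ := mem_blk.mp hp
    have h4 : (Y : ℝ) < 4 * p := by exact_mod_cast h2
    have h5 : 32 * R ≤ (p : ℝ) := by linarith
    have h6 : (p : ℝ) ≤ Y := by exact_mod_cast h3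
    refine ⟨h1, h5, ?_, ?_⟩
    · rw [hmdef]
      exact mul_le_mul_of_nonneg_right h6 hμ
    · have h7 : Real.log (32 * R) ≤ Real.log p := Real.log_le_log (by positivity) h5
      rw [Real.log_mul (by norm_num) hR0.ne'] at h7
      have h8 : (1 : ℝ) ≤ Real.log 32 := by
        have h9 : Real.exp 1 ≤ 32 := by
          have := Real.exp_one_lt_d9
          linarith
        have h10 := Real.log_le_log (Real.exp_pos 1) h9
        rwa [Real.log_exp] at h10
      rw [hL]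
      linarith
  have hgood : ∀ p ∈ blk Y, p.Prime ∧ ¬ Bad p := by
    intro p hpP
    obtain ⟨h1, h2, h3, h4⟩ := hp p hpP
    refine ⟨h1, fun hB => ?_⟩
    have h5 := hbad p h1 hB
    have h6 : 2 * (p : ℝ) ^ 2 * μ = 2 * p * (p * μ) := by ring
    have hp32 : 32 ≤ (p : ℝ) := by linarith
    have h7 : 2 * (p : ℝ) * (p * μ) ≤ 2 * p * (L / 128) :=
      mul_le_mul_of_nonneg_left (h3.trans hmL) (by positivity)
    have h8 : ((p : ℝ) / 2) * L ≤ ((p : ℝ) - 1) * Real.log p :=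
      mul_le_mul (by linarith) h4 hL0.le (by linarith)
    rw [h6] at h5
    have h9 : 32 * R * 1 ≤ (p : ℝ) * L := mul_le_mul h2 hL1 (by norm_num) (by linarith)
    nlinarith
  -- the indices
  have hidx : ∀ p ∈ blk Y, e p * L ≤ 4 * R := by
    intro p hpP
    obtain ⟨h1, h2, h3, h4⟩ := hp p hpP
    have h5 := hP {p} (by
      intro q hq
      rw [Finset.mem_singleton] at hq
      rw [hq]
      exact hgood p hpP) 0 le_rfl
    unfold rhs at h5
    have h6 : ({p} : Finset ℕ).erase p = ∅ := by simp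
    rw [Finset.sum_singleton, Finset.sum_singleton, Finset.sum_singleton, h6,
      Finset.sum_empty] at h5
    refine e_bd (s := 2 * p * μ) hR0 hL1 hLR h4 (he p h1) ?_ ?_
    · have h7 : 2 * (p : ℝ) * μ = 2 * (p * μ) := by ring
      rw [h7]
      linarith
    · linarith
  obtain ⟨Θ, hΘ⟩ : ∃ Θ : ℝ, Θ = ∑ p ∈ blk Y, Real.log p / e p := ⟨_, rfl⟩
  have hθ : ∀ p ∈ blk Y, L / (4 * R) * Real.log p ≤ Real.log p / e p := by
    intro p hpP
    obtain ⟨h1, h2, h3, h4⟩ := hp p hpP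
    have he1 := he p h1
    have hl0 : 0 ≤ Real.log p := by linarith
    rw [le_div_iff₀ (by linarith)]
    have h5 := hidx p hpP
    have h6 : L / (4 * R) * Real.log p * e p = (e p * L) / (4 * R) * Real.log p := by ring
    rw [h6]
    exact mul_le_of_le_one_left hl0 ((div_le_one (by positivity)).mpr h5)
  have hΘ1 : 4 * R ^ 2 / L ≤ Θ := by
    have h1 : L / (4 * R) * ∑ p ∈ blk Y, Real.log p ≤ Θ := by
      rw [hΘ, Finset.mul_sum]
      exact Finset.sum_le_sum hθ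
    have h2 := blk_sum hY0 Y hY0Y hY1
    have h3 : L / (4 * R) * (X / 8) ≤ L / (4 * R) * ∑ p ∈ blk Y, Real.log p :=
      mul_le_mul_of_nonneg_left (by linarith) (by positivity)
    have h4 : L / (4 * R) * (X / 8) = C * R ^ 2 / (32 * L) := by
      rw [hX]
      field_simp
      norm_num
    have h5 : 4 * R ^ 2 / L ≤ C * R ^ 2 / (32 * L) := by
      rw [div_le_div_iff₀ (by positivity) (by positivity)]
      have h6 : 0 ≤ R ^ 2 * L := by positivity
      nlinarith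
    linarith
  have hΘ2 : ((blk Y).card : ℝ) * L ^ 2 / (4 * R) ≤ Θ := by
    have h1 : ((blk Y).card : ℝ) * L ^ 2 / (4 * R) = ∑ p ∈ blk Y, L / (4 * R) * L := by
      rw [Finset.sum_const, nsmul_eq_mul]
      ring
    rw [h1, hΘ]
    refine Finset.sum_le_sum fun p hpP => ?_
    exact (mul_le_mul_of_nonneg_left (hp p hpP).2.2.2 (by positivity)).trans (hθ p hpP)
  have hΘ0 : 0 ≤ Θ := le_trans (by positivity) hΘ1
  have ha : 0 ≤ Θ / R := by positivity
  have hmain := hP (blk Y) hgood (Θ / R) ha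
  have hle := rhs_le (m := m) ha hR0.le hμ hL1 (fun p hpP => by
    obtain ⟨h1, h2, h3, h4⟩ := hp p hpP
    exact ⟨by linarith, h3, he p h1, h4⟩) hΘ
  exact final hR hL1 hLR hm0 hm (Nat.cast_nonneg _) hΘ1 hΘ2 (hmain.trans hle)

end Pool.Agent.Y319.RL
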